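import Mathlib
import Pool.Agent.B595.Tow.Main

set_option autoImplicit false

namespace Pool.Agent.Results.MP_4545a8_an.NoCommonPeriodicPoint

/-- the set of points with `f^n(x) = x` for some `n ≥ 1` -/
def Per {X : Type} (f : X → X) : Set X := {x | ∃ n : ℕ, 1 ≤ n ∧ f^[n] x = x}

lemma per_eq {X : Type} (f : X → X) : Per f = Function.periodicPts f := by
  ext x
  simp only [Per, Set.mem_ofPred_eq, Function.periodicPts, Function.IsPeriodicPt,
    Function.IsFixedPt]
  exact ⟨fun ⟨n, h1, h2⟩ => ⟨n, h1, h2⟩, fun ⟨n, h1, h2⟩ => ⟨n, h1, h2⟩⟩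

/-- There are continuous commuting maps `f, g : [0,1] → [0,1]` with no common periodic point; more
generally such maps exist on every compact interval `[a, b]` with `a < b`. -/
theorem result :
    (∃ f g : Set.Icc (0 : ℝ) 1 → Set.Icc (0 : ℝ) 1, Continuous f ∧ Continuous g ∧
      f ∘ g = g ∘ f ∧ Per f ∩ Per g = ∅) ∧
    (∀ a b : ℝ, a < b → ∃ f g : Set.Icc a b → Set.Icc a b, Continuous f ∧ Continuous g ∧
      f ∘ g = g ∘ f ∧ Per f ∩ Per g = ∅) := by
  obtain ⟨F, G, hFG, hno⟩ := CP.interval_example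
  have h0 : Per (F : Set.Icc (0 : ℝ) 1 → Set.Icc (0 : ℝ) 1) ∩ Per (G : _ → _) = ∅ := by
    rw [per_eq, per_eq]
    exact Set.not_nonempty_iff_eq_empty.1 hno
  refine ⟨⟨F, G, F.continuous, G.continuous, hFG, h0⟩, fun a b hab => ?_⟩
  let e := iccHomeoI a b hab
  have conj : ∀ (f : Set.Icc (0 : ℝ) 1 → Set.Icc (0 : ℝ) 1) (n : ℕ) (x : Set.Icc a b),
      (fun y => e.symm (f (e y)))^[n] x = e.symm (f^[n] (e x)) := by
    intro f n
    induction n with
    | zero => intro x; simp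
    | succ n ih => intro x; rw [Function.iterate_succ_apply, ih, Function.iterate_succ_apply]; simp
  refine ⟨fun y => e.symm (F (e y)), fun y => e.symm (G (e y)), by fun_prop, by fun_prop, ?_, ?_⟩
  · funext x
    simp only [Function.comp_apply, Homeomorph.apply_symm_apply]
    have := congrFun hFG (e x)
    simp only [Function.comp_apply] at this
    rw [this]
  · rw [Set.eq_empty_iff_forall_notMem]
    rintro x ⟨⟨n, hn, h1⟩, ⟨m, hm, h2⟩⟩
    rw [conj] at h1 h2
    have h3 : e x ∈ Per (F : Set.Icc (0 : ℝ) 1 → Set.Icc (0 : ℝ) 1) ∩ Per (G : _ → _) :=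
      ⟨⟨n, hn, e.symm_apply_eq.1 h1⟩, ⟨m, hm, e.symm_apply_eq.1 h2⟩⟩
    rw [h0] at h3
    exact h3

end Pool.Agent.Results.MP_4545a8_an.NoCommonPeriodicPoint
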